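import Mathlib

namespace Pool.Agent.Results.MP_cf7092_nt.MinusHalf

open Finset

/-- The matrix `(|j - k|)` of size `n`, rows and columns indexed by `j + 1`, `k + 1`. -/
def D (n : ℕ) : Matrix (Fin n) (Fin n) ℤ :=
  fun j k => |((j : ℕ) + 1 : ℤ) - ((k : ℕ) + 1)|

lemma sum_fixed {α : Type} [Fintype α] [DecidableEq α] (p : ℕ) [Fact p.Prime] (f : α → α)
    (hf : ∀ x, f^[p] x = x) (w : α → ZMod p) (hw : ∀ x, w (f x) = w x) :
    ∑ x, w x = ∑ x ∈ univ.filter (fun x => f x = x), w x := by
  rw [← sum_fiberwise (s := univ) (g := w), ← sum_fiberwise (s := univ.filter _) (g := w)]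
  refine sum_congr rfl fun v _ => ?_
  rw [sum_congr rfl (g := fun _ => v) (fun x hx => (mem_filter.mp hx).2),
    sum_congr rfl (g := fun _ => v) (fun x hx => (mem_filter.mp hx).2), sum_const, sum_const,
    nsmul_eq_mul, nsmul_eq_mul]
  congr 1
  let g : Function.End {x // w x = v} := fun x => ⟨f x.1, by rw [hw, x.2]⟩
  have hg : ∀ (k : ℕ) (x : {x // w x = v}), ((g ^ k) x).1 = f^[k] x.1 := by
    intro k
    induction k with
    | zero => intro x; rfl
    | succ k ih =>
      intro x
      rw [pow_succ, Function.iterate_succ_apply, ← show (g x).1 = f x.1 from rfl, ← ih]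
      rfl
  have h1 : g ^ p ^ 1 = 1 := by
    funext x
    apply Subtype.ext
    rw [pow_one, hg, hf]
    rfl
  have h2 := Equiv.Perm.card_fixedPoints_modEq h1
  rw [ZMod.natCast_eq_natCast_iff]
  have e1 : Fintype.card {x // w x = v} = #{x ∈ univ | w x = v} := Fintype.card_subtype _
  have e2 : Fintype.card (Function.fixedPoints g) =
      #{x ∈ univ.filter (fun x => f x = x) | w x = v} := by
    rw [← Fintype.card_coe]
    refine Fintype.card_congr ⟨fun x => ⟨x.1.1, ?_⟩, fun x => ⟨⟨x.1, ?_⟩, ?_⟩, ?_, ?_⟩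
    · simp only [mem_filter, mem_univ, true_and]
      exact ⟨congrArg Subtype.val x.2, x.1.2⟩
    · exact (mem_filter.mp x.2).2
    · exact Subtype.ext (mem_filter.mp (mem_filter.mp x.2).1).2
    · intro x; rfl
    · intro x; rfl
  rw [← e1, ← e2]
  exact h2

variable (p : ℕ) [Fact p.Prime]

def m (j k : ZMod p) : ZMod p :=
  ((|((j.val : ℕ) + 1 : ℤ) - ((k.val : ℕ) + 1)| : ℤ) : ZMod p)

def eps (j : ZMod p) : ZMod p := if j.val + 1 = p then -1 else 1

lemma val_succ (j : ZMod p) : (j + 1).val = if j.val + 1 = p then 0 else j.val + 1 := by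
  have h := ZMod.val_lt j
  rw [ZMod.val_add, ZMod.val_one]
  split_ifs with h1
  · rw [h1, Nat.mod_self]
  · exact Nat.mod_eq_of_lt (by omega)

lemma m_shift (j k : ZMod p) : m p (j + 1) (k + 1) = eps p j * eps p k * m p j k := by
  by_cases hjk : j = k
  · subst hjk
    unfold m eps
    split_ifs <;> simp_all
  · have hv : j.val ≠ k.val := fun h => hjk (ZMod.val_injective p h)
    have hj := ZMod.val_lt j
    have hk := ZMod.val_lt k
    have hp : ((p : ℤ) : ZMod p) = 0 := by simp
    unfold m eps
    rw [val_succ, val_succ]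
    generalize j.val = a at *
    generalize k.val = b at *
    split_ifs with h1 h2 h2
    · omega
    · rw [abs_of_nonpos (by push_cast; omega), abs_of_nonneg (by omega)]
      have : ((a : ℤ) + 1) = p := by omega
      rw [this]
      push_cast
      simp
    · rw [abs_of_nonneg (by push_cast; omega), abs_of_nonpos (by omega)]
      have : ((b : ℤ) + 1) = p := by omega
      rw [this]
      push_cast
      simp
    · rw [show (((a + 1 : ℕ) : ℤ) + 1) - (((b + 1 : ℕ) : ℤ) + 1) = (a + 1) - (b + 1) by
        push_cast; ring]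
      simp

def w (σ : Equiv.Perm (ZMod p)) : ZMod p := ∏ i, m p (σ i) i

def cj (σ : Equiv.Perm (ZMod p)) : Equiv.Perm (ZMod p) :=
  Equiv.addRight 1 * σ * (Equiv.addRight 1)⁻¹

lemma cj_apply (σ : Equiv.Perm (ZMod p)) (i : ZMod p) : cj p σ i = σ (i - 1) + 1 := by
  simp [cj, sub_eq_add_neg]

lemma w_cj (σ : Equiv.Perm (ZMod p)) : w p (cj p σ) = w p σ := by
  unfold w
  rw [← Equiv.prod_comp (Equiv.addRight (1 : ZMod p))]
  simp only [Equiv.coe_addRight, cj_apply, add_sub_cancel_right, m_shift, prod_mul_distrib]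
  rw [Equiv.prod_comp σ (eps p), ← prod_mul_distrib, prod_eq_one, one_mul]
  intro i _
  unfold eps
  split_ifs <;> simp

lemma cj_iter (k : ℕ) : ∀ (σ : Equiv.Perm (ZMod p)) (i : ZMod p),
    (cj p)^[k] σ i = σ (i - k) + k := by
  induction k with
  | zero => simp
  | succ k ih =>
    intro σ i
    rw [Function.iterate_succ_apply', cj_apply, ih]
    push_cast
    rw [add_assoc, sub_sub, add_comm 1]

lemma fixed_eq : univ.filter (fun σ => cj p σ = σ) =
    univ.image (fun c : ZMod p => Equiv.addRight c) := by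
  ext σ
  simp only [mem_filter, mem_univ, true_and, mem_image]
  constructor
  · intro h
    refine ⟨σ 0, Equiv.ext fun i => ?_⟩
    have := cj_iter p i.val σ i
    rw [Function.iterate_fixed h, ZMod.natCast_zmod_val, sub_self] at this
    rw [this]
    simp [add_comm]
  · rintro ⟨c, rfl⟩
    ext i
    rw [cj_apply]
    simp only [Equiv.coe_addRight]
    ring

lemma prod_val (g : ℕ → ZMod p) : ∏ i : ZMod p, g i.val = ∏ i ∈ range p, g i := by
  refine prod_nbij (fun i => i.val) (fun i _ => mem_range.mpr (ZMod.val_lt i))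
    (fun a _ b _ h => ZMod.val_injective p h) ?_ (fun _ _ => rfl)
  intro i hi
  exact ⟨i, by simp, ZMod.val_cast_of_lt (mem_range.mp hi)⟩

lemma sum_val (g : ℕ → ZMod p) : ∑ i : ZMod p, g i.val = ∑ i ∈ range p, g i := by
  refine sum_nbij (fun i => i.val) (fun i _ => mem_range.mpr (ZMod.val_lt i))
    (fun a _ b _ h => ZMod.val_injective p h) ?_ (fun _ _ => rfl)
  intro i hi
  exact ⟨i, by simp, ZMod.val_cast_of_lt (mem_range.mp hi)⟩

lemma w_shift (c : ZMod p) : w p (Equiv.addRight c) =
    (-1) ^ c.val * (c.val : ZMod p) := by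
  unfold w
  by_cases hc : c = 0
  · subst hc
    simp [m, (Fact.out : p.Prime).ne_zero]
  have hc' : c.val ≠ 0 := fun h => hc ((ZMod.val_eq_zero c).mp h)
  have hlt := ZMod.val_lt c
  have e : ∀ i : ZMod p, m p (Equiv.addRight c i) i = if i.val + c.val < p then c else -c := by
    intro i
    have hi := ZMod.val_lt i
    simp only [Equiv.coe_addRight]
    unfold m
    rw [ZMod.val_add]
    split_ifs with h
    · rw [Nat.mod_eq_of_lt h, abs_of_nonneg (by push_cast; omega)]
      push_cast
      simp
    · rw [show (i.val + c.val) % p = i.val + c.val - p by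
        rw [Nat.mod_eq_sub_mod (by omega), Nat.mod_eq_of_lt (by omega)],
        abs_of_nonpos (by omega), Nat.cast_sub (by omega)]
      push_cast
      simp
  simp only [e]
  rw [prod_val p (fun i => if i + c.val < p then c else -c), ZMod.natCast_zmod_val]
  have hp : range p = range ((p - c.val) + c.val) := by
    congr 1
    omega
  have q1 : ∏ i ∈ range (p - c.val), (if i + c.val < p then c else -c) = c ^ (p - c.val) := by
    rw [prod_congr rfl (g := fun _ => c), prod_const, card_range]
    intro i hi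
    have := mem_range.mp hi
    rw [if_pos (by omega)]
  have q2 : ∏ i ∈ range c.val, (if p - c.val + i + c.val < p then c else -c) = (-c) ^ c.val := by
    rw [prod_congr rfl (g := fun _ => -c), prod_const, card_range]
    intro i _
    rw [if_neg (by omega)]
  rw [hp, prod_range_add, q1, q2, neg_pow c, mul_left_comm, ← pow_add,
    Nat.sub_add_cancel hlt.le, ZMod.pow_card]

lemma alt {R : Type} [CommRing R] (k : ℕ) :
    ∑ c ∈ range (2 * k + 1), ((-1) ^ c * (c : R)) = k := by
  induction k with
  | zero => simp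
  | succ k ih =>
    rw [show 2 * (k + 1) + 1 = 2 * k + 1 + 1 + 1 by ring, sum_range_succ, sum_range_succ, ih,
      pow_succ _ (2 * k + 1), pow_succ _ (2 * k), pow_mul,
      neg_one_sq, one_pow]
    push_cast
    ring

lemma main (hodd : Odd p) : 2 * ∑ σ, w p σ = -1 := by
  rw [sum_fixed p (cj p) (fun σ => Equiv.ext fun i => by simp [cj_iter]) (w p) (w_cj p),
    fixed_eq, sum_image (fun a _ b _ h => by simpa using congrArg (fun e => e 0) h)]
  simp only [w_shift]
  rw [sum_val p (fun c => (-1) ^ c * (c : ZMod p))]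
  obtain ⟨k, hk⟩ := hodd
  have h0 : ((2 * k + 1 : ℕ) : ZMod p) = 0 := by rw [← hk]; simp
  rw [show range p = range (2 * k + 1) by rw [hk], alt]
  push_cast at h0
  linear_combination h0

theorem result (p : ℕ) (hp : p.Prime) (hodd : Odd p) : 2 * (D p).permanent ≡ -1 [ZMOD p] := by
  have : Fact p.Prime := ⟨hp⟩
  rw [← ZMod.intCast_eq_intCast_iff]
  have h := main p hodd
  obtain ⟨n, rfl⟩ : ∃ n, p = n + 1 := ⟨p - 1, by have := hp.pos; omega⟩
  unfold Matrix.permanent
  rw [Int.cast_mul, Int.cast_sum]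
  simp only [Int.cast_prod]
  rw [Int.cast_neg, Int.cast_one, Int.cast_two]
  exact h

end Pool.Agent.Results.MP_cf7092_nt.MinusHalf
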